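import Pool.Agent.Helper80.HG.StL

/-!
Project HG (MP_1bacb5_al), part L, module FR: the field of fractions of a ring of germs with signs
and derivatives.
-/

set_option autoImplicit false

namespace Pool.Agent.Helper69.HG

open Pool.Agent.Helper80.HG Filter Topology

private theorem der_congr {f g f' : ℝ → ℝ} (h : ∀ᶠ x in atTop, f x = g x)
    (hf : ∀ᶠ x in atTop, HasDerivAt f (f' x) x) : ∀ᶠ x in atTop, HasDerivAt g (f' x) x := by
  obtain ⟨a, ha⟩ := eventually_atTop.1 (h.and hf)
  filter_upwards [eventually_gt_atTop a] with x hx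
  apply (ha x hx.le).2.congr_of_eventuallyEq
  filter_upwards [lt_mem_nhds hx] with y hy
  exact ((ha y hy.le).1).symm

private theorem fsign {R : Set (ℝ → ℝ)}
    (hs : ∀ f ∈ R, (∀ᶠ x in atTop, f x = 0) ∨ (∀ᶠ x in atTop, 0 < f x) ∨ ∀ᶠ x in atTop, f x < 0)
    {f : ℝ → ℝ} (hf : f ∈ R) : (∀ᶠ x in atTop, f x = 0) ∨ ∀ᶠ x in atTop, f x ≠ 0 := by
  rcases hs f hf with h | h | h
  · exact Or.inl h
  · exact Or.inr (h.mono fun x hx => hx.ne')
  · exact Or.inr (h.mono fun x hx => hx.ne)

theorem hFR : StFR := by
  intro R hcongr hconst hadd hmul hsign hder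
  refine ⟨{f | ∃ p ∈ R, ∃ q ∈ R, ∀ᶠ x in atTop, f x = p x / q x}, ?_, ?_⟩
  · constructor
    · rintro f ⟨p, hp, q, hq, h⟩ g hg
      refine ⟨p, hp, q, hq, ?_⟩
      filter_upwards [h, hg] with x h1 h2
      rw [← h2, h1]
    · intro c
      refine ⟨fun _ => c, hconst c, fun _ => 1, hconst 1, Eventually.of_forall fun x => ?_⟩
      simp
    · rintro f ⟨p, hp, q, hq, h⟩ g ⟨p', hp', q', hq', h'⟩
      rcases fsign hsign hq with h0 | h0
      · refine ⟨p', hp', q', hq', ?_⟩
        filter_upwards [h, h', h0] with x h1 h2 h3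
        change f x + g x = _
        rw [h1, h2, h3, div_zero, zero_add]
      · rcases fsign hsign hq' with h0' | h0'
        · refine ⟨p, hp, q, hq, ?_⟩
          filter_upwards [h, h', h0'] with x h1 h2 h3
          change f x + g x = _
          rw [h1, h2, h3, div_zero, add_zero]
        · refine ⟨fun x => p x * q' x + p' x * q x, hadd _ (hmul _ hp _ hq') _ (hmul _ hp' _ hq),
            fun x => q x * q' x, hmul _ hq _ hq', ?_⟩
          filter_upwards [h, h', h0, h0'] with x h1 h2 h3 h4
          change f x + g x = _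
          rw [h1, h2]
          field_simp
    · rintro f ⟨p, hp, q, hq, h⟩ g ⟨p', hp', q', hq', h'⟩
      refine ⟨fun x => p x * p' x, hmul _ hp _ hp', fun x => q x * q' x, hmul _ hq _ hq', ?_⟩
      filter_upwards [h, h'] with x h1 h2
      change f x * g x = _
      rw [h1, h2, div_mul_div_comm]
    · rintro f ⟨p, hp, q, hq, h⟩
      refine ⟨q, hq, p, hp, ?_⟩
      filter_upwards [h] with x h1
      change (f x)⁻¹ = _
      rw [h1, inv_div]
    · rintro f ⟨p, hp, q, hq, h⟩
      rcases hsign p hp with h1 | h1 | h1 <;> rcases hsign q hq with h2 | h2 | h2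
      · left; filter_upwards [h, h1] with x a b; rw [a, b, zero_div]
      · left; filter_upwards [h, h1] with x a b; rw [a, b, zero_div]
      · left; filter_upwards [h, h1] with x a b; rw [a, b, zero_div]
      · left; filter_upwards [h, h2] with x a b; rw [a, b, div_zero]
      · right; left; filter_upwards [h, h1, h2] with x a b c; rw [a]; exact div_pos b c
      · right; right; filter_upwards [h, h1, h2] with x a b c; rw [a]; exact div_neg_of_pos_of_neg b c
      · left; filter_upwards [h, h2] with x a b; rw [a, b, div_zero]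
      · right; right; filter_upwards [h, h1, h2] with x a b c; rw [a]; exact div_neg_of_neg_of_pos b c
      · right; left; filter_upwards [h, h1, h2] with x a b c; rw [a]; exact div_pos_of_neg_of_neg b c
    · rintro f ⟨p, hp, q, hq, h⟩
      rcases fsign hsign hq with h0 | h0
      · refine ⟨fun _ => 0, ⟨fun _ => 0, hconst 0, fun _ => 1, hconst 1,
          Eventually.of_forall fun x => by simp⟩, ?_⟩
        have h1 : ∀ᶠ x in atTop, (fun _ : ℝ => (0 : ℝ)) x = f x := by
          filter_upwards [h, h0] with x a b
          rw [a, b, div_zero]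
        exact der_congr h1 (Eventually.of_forall fun x => hasDerivAt_const x (0 : ℝ))
      · obtain ⟨p', hp', hpd⟩ := hder p hp
        obtain ⟨q', hq', hqd⟩ := hder q hq
        have hnum : (fun x => p' x * q x + (-1) * (p x * q' x)) ∈ R :=
          hadd _ (hmul _ hp' _ hq) _ (hmul _ (hconst (-1)) _ (hmul _ hp _ hq'))
        have hden : (fun x => q x * q x) ∈ R := hmul _ hq _ hq
        refine ⟨fun x => (p' x * q x + (-1) * (p x * q' x)) / (q x * q x),
          ⟨_, hnum, _, hden, Eventually.of_forall fun x => rfl⟩, ?_⟩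
        have h1 : ∀ᶠ x in atTop, (fun x => p x / q x) x = f x := h.mono fun x a => a.symm
        apply der_congr h1
        filter_upwards [hpd, hqd, h0] with x a b c
        have := a.div b c
        have e : (p' x * q x + (-1) * (p x * q' x)) / (q x * q x) =
            (p' x * q x - p x * q' x) / q x ^ 2 := by
          congr 1 <;> ring
        rw [e]
        exact this
  · intro f hf
    exact ⟨f, hf, fun _ => 1, hconst 1, Eventually.of_forall fun x => by simp⟩

end Pool.Agent.Helper69.HG
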