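import Pool.Agent.Helper80.HG.StL

/-!
Project HG (MP_1bacb5_al), part L, module ZN: a maximal Hardy field is closed under exponentials and
logarithms.
-/

set_option autoImplicit false

namespace Pool.Agent.Helper69.HG

open Pool.Agent.Helper80.HG Filter Topology

private theorem HK_const : HK {f : ℝ → ℝ | ∃ c : ℝ, ∀ᶠ x in atTop, f x = c} := by
  constructor
  · rintro f ⟨c, hc⟩ g hg
    refine ⟨c, ?_⟩
    filter_upwards [hc, hg] with x h1 h2
    rw [← h2, h1]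
  · intro c
    exact ⟨c, Eventually.of_forall fun x => rfl⟩
  · rintro f ⟨c, hc⟩ g ⟨d, hd⟩
    refine ⟨c + d, ?_⟩
    filter_upwards [hc, hd] with x h1 h2
    rw [h1, h2]
  · rintro f ⟨c, hc⟩ g ⟨d, hd⟩
    refine ⟨c * d, ?_⟩
    filter_upwards [hc, hd] with x h1 h2
    rw [h1, h2]
  · rintro f ⟨c, hc⟩
    refine ⟨c⁻¹, ?_⟩
    filter_upwards [hc] with x h1
    rw [h1]
  · rintro f ⟨c, hc⟩
    rcases lt_trichotomy c 0 with h | h | h
    · right; right; filter_upwards [hc] with x h1; rw [h1]; exact h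
    · left; filter_upwards [hc] with x h1; rw [h1]; exact h
    · right; left; filter_upwards [hc] with x h1; rw [h1]; exact h
  · rintro f ⟨c, hc⟩
    refine ⟨fun _ => 0, ⟨0, Eventually.of_forall fun x => rfl⟩, ?_⟩
    obtain ⟨a, ha⟩ := eventually_atTop.1 hc
    filter_upwards [eventually_gt_atTop a] with x hx
    apply (hasDerivAt_const x c).congr_of_eventuallyEq
    filter_upwards [lt_mem_nhds hx] with y hy
    exact ha y hy.le

private theorem HK_union {c : Set (Set (ℝ → ℝ))} (hc : ∀ K ∈ c, HK K) (hch : IsChain (· ⊆ ·) c)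
    (hne : c.Nonempty) : HK (⋃₀ c) := by
  have two : ∀ f ∈ ⋃₀ c, ∀ g ∈ ⋃₀ c, ∃ K ∈ c, f ∈ K ∧ g ∈ K := by
    rintro f ⟨K, hK, hf⟩ g ⟨K', hK', hg⟩
    rcases hch.total hK hK' with h | h
    · exact ⟨K', hK', h hf, hg⟩
    · exact ⟨K, hK, hf, h hg⟩
  constructor
  · rintro f ⟨K, hK, hf⟩ g hg
    exact ⟨K, hK, (hc K hK).congr f hf g hg⟩
  · intro a
    obtain ⟨K, hK⟩ := hne
    exact ⟨K, hK, (hc K hK).const a⟩
  · intro f hf g hg
    obtain ⟨K, hK, h1, h2⟩ := two f hf g hg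
    exact ⟨K, hK, (hc K hK).add f h1 g h2⟩
  · intro f hf g hg
    obtain ⟨K, hK, h1, h2⟩ := two f hf g hg
    exact ⟨K, hK, (hc K hK).mul f h1 g h2⟩
  · rintro f ⟨K, hK, hf⟩
    exact ⟨K, hK, (hc K hK).inv f hf⟩
  · rintro f ⟨K, hK, hf⟩
    exact (hc K hK).sign f hf
  · rintro f ⟨K, hK, hf⟩
    obtain ⟨f', h1, h2⟩ := (hc K hK).deriv f hf
    exact ⟨f', ⟨K, hK, h1⟩, h2⟩

theorem hZN : StZN := by
  intro hFR hEA hEB
  obtain ⟨M, -, hM⟩ := zorn_subset_nonempty {K : Set (ℝ → ℝ) | HK K}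
    (fun c hcS hch hne => ⟨⋃₀ c, HK_union (fun K hK => hcS hK) hch hne,
      fun s hs => Set.subset_sUnion_of_mem hs⟩) _ HK_const
  have hK : HK M := hM.prop
  have ext1 : ∀ y s : ℝ → ℝ, s ∈ M → (∀ᶠ x in atTop, HasDerivAt y (s x) x) → y ∈ M := by
    intro y s hs hy
    obtain ⟨K', h1, h2, h3⟩ := hEA hFR M hK y s hs hy
    exact hM.le_of_ge h1 h2 h3
  have ext2 : ∀ y s : ℝ → ℝ, s ∈ M → (∀ᶠ x in atTop, 0 < y x) →
      (∀ᶠ x in atTop, HasDerivAt y (s x * y x) x) → y ∈ M := by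
    intro y s hs hp hy
    obtain ⟨K', h1, h2, h3⟩ := hEB hFR M hK y s hs hp hy
    exact hM.le_of_ge h1 h2 h3
  refine ⟨M, ⟨hK, ?_, ?_, ?_⟩⟩
  · exact ext1 _ (fun _ => 1) (hK.const 1) (Eventually.of_forall fun x => hasDerivAt_id x)
  · intro f hf
    obtain ⟨f', h1, h2⟩ := hK.deriv f hf
    apply ext2 _ f' h1 (Eventually.of_forall fun x => Real.exp_pos _)
    filter_upwards [h2] with x hx
    have := hx.exp
    rwa [mul_comm] at this
  · intro f hf
    have key : (∀ᶠ x in atTop, f x ≠ 0) → (fun x => Real.log (f x)) ∈ M := by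
      intro h0
      obtain ⟨f', h1, h2⟩ := hK.deriv f hf
      apply ext1 _ (fun x => f' x * (f x)⁻¹) (hK.mul _ h1 _ (hK.inv _ hf))
      filter_upwards [h2, h0] with x hx h0x
      have := hx.log h0x
      rwa [div_eq_mul_inv] at this
    rcases hK.sign f hf with h | h | h
    · apply hK.congr _ (hK.const 0)
      filter_upwards [h] with x hx
      rw [hx, Real.log_zero]
    · exact key (h.mono fun x hx => hx.ne')
    · exact key (h.mono fun x hx => hx.ne)

end Pool.Agent.Helper69.HG
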